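import Pool.Agent.H3.ErdBor.Main

set_option autoImplicit false

namespace Pool.Agent.H3.ErdBor

open Finset Filter

lemma no_class {k : ℕ} (hk : 2 ≤ k) (c : ℕ) (S : Type) [Finite S] (cls : ℕ → S) 
    (G : S → ℕ → ℕ → ℤ) 
    (h : ∀ m e r, 1 ≤ m → r < k ^ e → digit k (A k) (m * k ^ e + r + c) = G (cls m) e r) : False := by
  have step1 : ∀ e, ∃ m, 1 ≤ m ∧ ∀ r, r < k ^ e → digit k (A k) (m * k ^ e + r + c) = 0 := by
    intro e
    obtain ⟨Y0, hY⟩ := lemmaA k (2 * k ^ e) 1 hk le_rfl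
    obtain ⟨n, J, hn, -, hg, hS⟩ := hY (Y0 + c) (by omega)
    have hz := zero_run hk hg hS
    have hke : 0 < k ^ e := by positivity
    refine ⟨(n - c) / k ^ e + 1, Nat.le_add_left 1 _, fun r hr => ?_⟩
    have h1 := Nat.div_add_mod (n - c) (k ^ e)
    have h2 := Nat.mod_lt (n - c) hke
    have h3 : ((n - c) / k ^ e + 1) * k ^ e = k ^ e * ((n - c) / k ^ e) + k ^ e := by ring
    rw [h3]
    generalize k ^ e * ((n - c) / k ^ e) = P at h1
    generalize (n - c) % k ^ e = w at h1 h2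
    obtain ⟨l, hl⟩ : ∃ l, P + k ^ e + r + c = n + l := ⟨P + k ^ e + r + c - n, by omega⟩
    rw [hl]
    exact hz l (by omega) (by omega)
  choose m hm1 hm2 using step1
  obtain ⟨y, hy⟩ := Finite.exists_infinite_fiber (fun e => cls (m e))
  have hinf : (( fun e => cls (m e)) ⁻¹' {y}).Infinite := Set.infinite_coe_iff.1 hy
  obtain ⟨e0, he0⟩ := hinf.nonempty
  simp only [Set.mem_preimage, Set.mem_singleton_iff] at he0
  set D := m e0 + c + 1 with hD
  obtain ⟨Y0, hY⟩ := lemmaA k 0 D hk (by omega)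
  obtain ⟨e, he, heY⟩ := hinf.exists_gt Y0
  simp only [Set.mem_preimage, Set.mem_singleton_iff] at he
  have hke : Y0 ≤ k ^ e := by
    calc Y0 ≤ e := heY.le
      _ ≤ 2 ^ e := Nat.lt_two_pow_self.le
      _ ≤ k ^ e := Nat.pow_le_pow_left hk _
  have hzero : ∀ r, r < k ^ e → digit k (A k) (m e0 * k ^ e + r + c) = 0 := by
    intro r hr
    rw [h _ _ _ (hm1 e0) hr, he0, ← he, ← h _ _ _ (hm1 e) hr]
    exact hm2 e r hr
  have hke1 : 1 ≤ k ^ e := Nat.one_le_pow _ _ (by omega)
  have hm0 := hm1 e0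
  obtain ⟨n, J, hn, hnD, hg, hS⟩ := hY (m e0 * k ^ e + c) (by nlinarith)
  refine no_block hk hg (by simpa using hS) fun j hj1 hj2 => ?_
  have hlt : n + J + 1 < m e0 * k ^ e + c + k ^ e := by
    by_contra hge
    push Not at hge
    have h1 : D * (m e0 * k ^ e + c + k ^ e) ≤ D * (m e0 * k ^ e + c) + (m e0 * k ^ e + c) := 
      (Nat.mul_le_mul_left D hge).trans hnD
    have h2 : D * k ^ e ≤ m e0 * k ^ e + c := by
      have : D * (m e0 * k ^ e + c + k ^ e) = D * (m e0 * k ^ e + c) + D * k ^ e := by ring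
      omega
    have h3 : D * k ^ e = m e0 * k ^ e + c * k ^ e + k ^ e := by rw [hD]; ring
    nlinarith
  obtain ⟨r, hr⟩ : ∃ r, n + j = m e0 * k ^ e + r + c := ⟨n + j - (m e0 * k ^ e + c), by omega⟩
  rw [hr]
  exact hzero r (by omega)

/-- padded digit list -/
def pad (k : ℕ) : ℕ → ℕ → List ℕ
  | 0, _ => []
  | e + 1, r => (r % k) :: pad k e (r / k)

lemma digits_eq {k : ℕ} (hk : 2 ≤ k) {m : ℕ} (hm : 1 ≤ m) (e : ℕ) : ∀ r, r < k ^ e → 
    Nat.digits k (m * k ^ e + r) = pad k e r ++ Nat.digits k m := by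
  induction e with
  | zero => intro r hr; simp at hr; subst hr; simp [pad]
  | succ e ih =>
    intro r hr
    have hk0 : 0 < k := by omega
    have hpos : 0 < m * k ^ (e + 1) + r := by positivity
    rw [Nat.digits_def' (by omega) hpos, pad, List.cons_append]
    have h1 : m * k ^ (e + 1) + r = k * (m * k ^ e) + r := by ring
    rw [h1, Nat.mul_add_mod, Nat.mul_add_div hk0, ih (r / k)]
    rw [Nat.div_lt_iff_lt_mul hk0, ← pow_succ]
    exact hr

theorem not_automatic {k : ℕ} (hk : 2 ≤ k) (c : ℕ) : 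
    ¬ IsAutomatic k (fun n => digit k (A k) (n + c)) := by
  rintro ⟨σ, hfin, δ, q₀, out, h | h⟩
  · refine no_class hk c σ (fun m => (Nat.digits k m).reverse.foldl δ q₀) 
      (fun q e r => out ((pad k e r).reverse.foldl δ q)) ?_
    intro m e r hm hr
    have h1 := h (m * k ^ e + r)
    rw [digits_eq hk hm e r hr, List.reverse_append, List.foldl_append] at h1
    exact h1
  · refine no_class hk c (σ → σ) (fun m => fun q => (Nat.digits k m).foldl δ q) 
      (fun f e r => out (f ((pad k e r).foldl δ q₀))) ?_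
    intro m e r hm hr
    have h1 := h (m * k ^ e + r)
    rw [digits_eq hk hm e r hr, List.foldl_append] at h1
    exact h1

end Pool.Agent.H3.ErdBor
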