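import Pool.Agent.H3.ErdBor.Defs

set_option autoImplicit false

namespace Pool.Agent.H3.ErdBor

open Finset

def tau (n : ℕ) : ℕ := n.divisors.card

lemma tau_le (n : ℕ) : tau n ≤ n := Nat.card_divisors_le_self n

lemma tau_pos {n : ℕ} (h : 0 < n) : 0 < tau n := Finset.card_pos.2 ⟨1, by simp; omega⟩

lemma summable_tau {k : ℕ} (hk : 2 ≤ k) : Summable fun n : ℕ => (tau n : ℝ) / (k : ℝ) ^ n := by
  have hk' : (2 : ℝ) ≤ k := by exact_mod_cast hk
  have h1 : Summable fun n : ℕ => (n : ℝ) ^ 1 * (1 / (k : ℝ)) ^ n := by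
    apply summable_pow_mul_geometric_of_norm_lt_one
    rw [Real.norm_eq_abs, abs_of_nonneg (by positivity), div_lt_one (by linarith)]
    linarith
  refine Summable.of_nonneg_of_le (fun n => by positivity) (fun n => ?_) h1
  rw [pow_one, one_div, inv_pow, div_eq_mul_inv]
  gcongr
  exact_mod_cast tau_le n

lemma A_eq {k : ℕ} (hk : 2 ≤ k) : A k = ∑' n : ℕ, (tau n : ℝ) / (k : ℝ) ^ n := by
  have hk' : (2 : ℝ) ≤ k := by exact_mod_cast hk
  have hr : ‖(1 / (k : ℝ))‖ < 1 := by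
    rw [Real.norm_eq_abs, abs_of_nonneg (by positivity), div_lt_one (by linarith)]
    linarith
  have h := tsum_pow_div_one_sub_eq_tsum_sigma hr 0
  have h1 : ∑' n : ℕ+, ((n : ℕ) : ℝ) ^ 0 * (1 / (k : ℝ)) ^ (n : ℕ) / (1 - (1 / (k : ℝ)) ^ (n : ℕ)) 
      = A k := by
    rw [tsum_pnat_eq_tsum_succ (f := fun n : ℕ => (n : ℝ) ^ 0 * (1 / (k : ℝ)) ^ n / (1 - (1 / (k : ℝ)) ^ n))]
    unfold A
    refine tsum_congr fun n => ?_
    have h2 : (1 : ℝ) < (k : ℝ) ^ (n + 1) := one_lt_pow₀ (by linarith) (by omega)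
    have h3 : (k : ℝ) ^ (n + 1) ≠ 0 := by positivity
    rw [pow_zero, one_mul, div_pow, one_pow]
    field_simp
  have h2 : ∑' n : ℕ+, ((ArithmeticFunction.sigma 0 (n : ℕ) : ℕ) : ℝ) * (1 / (k : ℝ)) ^ (n : ℕ) = 
      ∑' n : ℕ, (tau n : ℝ) / (k : ℝ) ^ n := by
    rw [tsum_pnat_eq_tsum_succ (f := fun n : ℕ => ((ArithmeticFunction.sigma 0 n : ℕ) : ℝ) * (1 / (k : ℝ)) ^ n)]
    rw [(summable_tau hk).tsum_eq_zero_add]
    simp [tau, ArithmeticFunction.sigma_zero_apply, div_eq_mul_inv]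
  rw [← h1, ← h2]
  exact h

def T (k : ℕ) : ℕ → ℕ
  | 0 => 0
  | n + 1 => k * T k n + tau (n + 1)

noncomputable def S (k n : ℕ) : ℝ := (k : ℝ) ^ n * A k - T k n

lemma S_succ (k n : ℕ) : S k (n + 1) = k * S k n - tau (n + 1) := by
  simp only [S, T]; push_cast; ring

lemma summable_shift {k : ℕ} (hk : 2 ≤ k) (n : ℕ) : 
    Summable fun j : ℕ => (tau (n + 1 + j) : ℝ) / (k : ℝ) ^ (j + 1) := by
  have hk' : (2 : ℝ) ≤ k := by exact_mod_cast hk
  have h := (summable_nat_add_iff (n + 1)).2 (summable_tau hk)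
  have h2 := h.mul_left ((k : ℝ) ^ n)
  refine h2.congr fun j => ?_
  have : (k : ℝ) ≠ 0 := by positivity
  rw [show j + (n + 1) = n + 1 + j by ring]
  field_simp
  ring

lemma S_eq {k : ℕ} (hk : 2 ≤ k) (n : ℕ) : 
    S k n = ∑' j : ℕ, (tau (n + 1 + j) : ℝ) / (k : ℝ) ^ (j + 1) := by
  have hk' : (2 : ℝ) ≤ k := by exact_mod_cast hk
  have hk0 : (k : ℝ) ≠ 0 := by positivity
  induction n with
  | zero =>
    simp only [S, pow_zero, one_mul, T, Nat.cast_zero, sub_zero]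
    rw [A_eq hk, (summable_tau hk).tsum_eq_zero_add]
    simp [tau, add_comm]
  | succ n ih =>
    rw [S_succ, ih, (summable_shift hk n).tsum_eq_zero_add, mul_add, ← tsum_mul_left]
    have : (k : ℝ) * ((tau (n + 1 + 0) : ℝ) / (k : ℝ) ^ (0 + 1)) = tau (n + 1) := by
      field_simp; simp; ring
    rw [this, add_sub_cancel_left]
    refine tsum_congr fun j => ?_
    rw [show n + 1 + (j + 1) = n + 1 + 1 + j by ring]
    field_simp
    ring

lemma S_nonneg {k : ℕ} (hk : 2 ≤ k) (n : ℕ) : 0 ≤ S k n := by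
  rw [S_eq hk]
  exact tsum_nonneg fun j => by positivity

lemma S_le {k : ℕ} (hk : 2 ≤ k) (n : ℕ) : S k n ≤ n + 2 := by
  have hk' : (2 : ℝ) ≤ k := by exact_mod_cast hk
  have h1 : HasSum (fun j : ℕ => (j : ℝ) * (1 / 2 : ℝ) ^ j) ((1 / 2) / (1 - 1 / 2) ^ 2) :=
    hasSum_coe_mul_geometric_of_norm_lt_one (by norm_num)
  have h2 : HasSum (fun j : ℕ => (1 / 2 : ℝ) ^ j) 2 := hasSum_geometric_two
  have h3 := (h1.add (h2.mul_left ((n : ℝ) + 1))).mul_left (1 / 2 : ℝ)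
  rw [S_eq hk]
  have h4 : (1 / 2 : ℝ) * ((1 / 2) / (1 - 1 / 2) ^ 2 + ((n : ℝ) + 1) * 2) = n + 2 := by norm_num; ring
  rw [h4] at h3
  refine (Summable.tsum_le_tsum (fun j => ?_) (summable_shift hk n) h3.summable).trans h3.tsum_eq.le
  have h5 : (tau (n + 1 + j) : ℝ) ≤ (n : ℝ) + 1 + j := by exact_mod_cast tau_le (n + 1 + j)
  calc (tau (n + 1 + j) : ℝ) / (k : ℝ) ^ (j + 1) ≤ ((n : ℝ) + 1 + j) / 2 ^ (j + 1) := by gcongr
    _ = _ := by rw [one_div, inv_pow]; field_simp; ring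

/-- iterated recurrence -/
lemma S_iter {k : ℕ} (hk : 2 ≤ k) (n J : ℕ) : 
    S k n = ∑ j ∈ range J, (tau (n + 1 + j) : ℝ) / (k : ℝ) ^ (j + 1) + S k (n + J) / (k : ℝ) ^ J := by
  have hk' : (2 : ℝ) ≤ k := by exact_mod_cast hk
  have hk0 : (k : ℝ) ≠ 0 := by positivity
  induction J with
  | zero => simp
  | succ J ih =>
    rw [ih, Finset.sum_range_succ, show n + (J + 1) = n + J + 1 by ring, S_succ, 
      show n + 1 + J = n + J + 1 by ring]
    field_simp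
    ring

/-- if `k^J` divides the divisor function on the window -/
def Good (k n J : ℕ) : Prop := ∀ j, 1 ≤ j → j ≤ J → k ^ J ∣ tau (n + j)

lemma T_window {k n J : ℕ} (hg : Good k n J) : ∀ i, i ≤ J → ∃ c : ℕ, T k (n + i) = k ^ i * T k n + k ^ J * c := by
  intro i
  induction i with
  | zero => intro _; exact ⟨0, by simp⟩
  | succ i ih =>
    intro hi
    obtain ⟨c, hc⟩ := ih (by omega)
    obtain ⟨d, hd⟩ := hg (i + 1) (by omega) hi
    refine ⟨k * c + d, ?_⟩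
    rw [show n + (i + 1) = n + i + 1 by ring, T, hc, show n + i + 1 = n + (i + 1) by ring, hd]
    ring

lemma floor_succ {k : ℕ} (hk : 2 ≤ k) (x : ℝ) (n : ℕ) : 
    ⌊(k : ℝ) ^ (n + 1) * x⌋ = k * ⌊(k : ℝ) ^ n * x⌋ + digit k x (n + 1) := by
  have h : ⌊(k : ℝ) ^ n * x⌋ = ⌊(k : ℝ) ^ (n + 1) * x⌋ / (k : ℤ) := by
    rw [pow_succ, show (k : ℝ) ^ n * k * x = (k : ℝ) ^ n * x * k by ring]
    have := Int.floor_div_natCast ((k : ℝ) ^ n * x * k) k
    rw [← this]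
    congr 1
    have : (k : ℝ) ≠ 0 := by positivity
    field_simp
  rw [h, digit]
  exact (Int.mul_ediv_add_emod _ _).symm

lemma no_block {k n J : ℕ} (hk : 2 ≤ k) (hg : Good k n J) (hS : S k (n + J) < (k : ℝ) ^ J)
    (hz : ∀ j, 1 ≤ j → j ≤ J + 1 → digit k (A k) (n + j) = 0) : False := by
  have h1 : ∀ i, i ≤ J + 1 → ⌊(k : ℝ) ^ (n + i) * A k⌋ = (k : ℤ) ^ i * ⌊(k : ℝ) ^ n * A k⌋ := by
    intro i
    induction i with
    | zero => intro _; simp
    | succ i ih =>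
      intro hi
      rw [show n + (i + 1) = n + i + 1 by ring, floor_succ hk, ih (by omega), 
        show n + i + 1 = n + (i + 1) by ring, hz (i + 1) (by omega) hi]
      ring
  obtain ⟨c, hc⟩ := T_window hg J le_rfl
  -- floor of S
  have hfl : ∀ m, ⌊S k m⌋ = ⌊(k : ℝ) ^ m * A k⌋ - (T k m : ℤ) := by
    intro m
    rw [S]
    have := Int.floor_sub_natCast ((k : ℝ) ^ m * A k) (T k m)
    exact_mod_cast this
  have h2 : ⌊S k (n + J)⌋ = (k : ℤ) ^ J * (⌊(k : ℝ) ^ n * A k⌋ - T k n - c) := by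
    rw [hfl, h1 J (by omega), hc]
    push_cast
    ring
  have h3 : 0 ≤ ⌊S k (n + J)⌋ := Int.floor_nonneg.2 (S_nonneg hk _)
  have h4 : ⌊S k (n + J)⌋ < (k : ℤ) ^ J := by
    rw [Int.floor_lt]
    push_cast
    exact hS
  have h5 : ⌊S k (n + J)⌋ = 0 := by
    have hkp : (0 : ℤ) < (k : ℤ) ^ J := by positivity
    rw [h2] at h3 h4 ⊢
    have h6 : 0 ≤ ⌊(k : ℝ) ^ n * A k⌋ - (T k n : ℤ) - c := by
      by_contra hneg
      push Not at hneg
      nlinarith
    have h7 : ⌊(k : ℝ) ^ n * A k⌋ - (T k n : ℤ) - c < 1 := by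
      by_contra hneg
      push Not at hneg
      nlinarith
    have h8 : ⌊(k : ℝ) ^ n * A k⌋ - (T k n : ℤ) - c = 0 := by omega
    rw [h8]; ring
  have h9 : ⌊S k (n + J + 1)⌋ = k * ⌊S k (n + J)⌋ - tau (n + J + 1) := by
    rw [hfl, hfl, show n + J + 1 = n + (J + 1) by ring, h1 (J + 1) le_rfl, h1 J (by omega),
      show n + (J + 1) = n + J + 1 by ring, T]
    push_cast
    ring
  have h10 : 0 ≤ ⌊S k (n + J + 1)⌋ := Int.floor_nonneg.2 (S_nonneg hk _)
  rw [h5] at h9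
  have h11 : 0 < tau (n + J + 1) := tau_pos (by omega)
  have : (0 : ℤ) < tau (n + J + 1) := by exact_mod_cast h11
  omega

lemma zero_run {k n J L : ℕ} (hk : 2 ≤ k) (hg : Good k n J) 
    (hS : S k (n + J) * (k : ℝ) ^ L < (k : ℝ) ^ J) :
    ∀ l, 1 ≤ l → l ≤ L → digit k (A k) (n + l) = 0 := by
  have hk' : (2 : ℝ) ≤ k := by exact_mod_cast hk
  have hk0 : (k : ℝ) ≠ 0 := by positivity
  -- `k^n A = integer + f`
  have hint : ∃ N : ℤ, (k : ℝ) ^ n * A k = N + S k (n + J) / (k : ℝ) ^ J := by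
    have h1 : ∀ s : Finset ℕ, s ⊆ range J → ∃ N : ℤ, ∑ j ∈ s, (tau (n + 1 + j) : ℝ) / (k : ℝ) ^ (j + 1) = N := by
      intro s
      induction s using Finset.induction_on with
      | empty => intro _; exact ⟨0, by simp⟩
      | insert a s ha ih =>
        intro hs
        obtain ⟨N, hN⟩ := ih (fun x hx => hs (Finset.mem_insert_of_mem hx))
        have haJ : a < J := Finset.mem_range.1 (hs (Finset.mem_insert_self _ _))
        obtain ⟨d, hd⟩ := hg (a + 1) (by omega) (by omega)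
        refine ⟨N + (k : ℤ) ^ (J - (a + 1)) * d, ?_⟩
        rw [Finset.sum_insert ha, hN, show n + 1 + a = n + (a + 1) by ring, hd]
        have : (k : ℝ) ^ J = (k : ℝ) ^ (J - (a + 1)) * (k : ℝ) ^ (a + 1) := by
          rw [← pow_add]; congr 1; omega
        push_cast
        rw [this]
        field_simp
        ring
    obtain ⟨N, hN⟩ := h1 (range J) (Finset.Subset.refl _)
    refine ⟨N + T k n, ?_⟩
    have h2 : (k : ℝ) ^ n * A k = S k n + T k n := by rw [S]; ring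
    rw [h2, S_iter hk n J, hN]
    push_cast
    ring
  obtain ⟨N, hN⟩ := hint
  set f := S k (n + J) / (k : ℝ) ^ J with hf
  have hf0 : 0 ≤ f := div_nonneg (S_nonneg hk _) (by positivity)
  have hf1 : f * (k : ℝ) ^ L < 1 := by
    rw [hf, div_mul_eq_mul_div, div_lt_one (by positivity)]
    exact hS
  intro l hl1 hl2
  have h3 : f * (k : ℝ) ^ l < 1 := by
    refine lt_of_le_of_lt ?_ hf1
    gcongr
    linarith
  have h4 : ⌊(k : ℝ) ^ (n + l) * A k⌋ = (k : ℤ) ^ l * N := by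
    rw [pow_add, show (k : ℝ) ^ n * (k : ℝ) ^ l * A k = (k : ℝ) ^ l * ((k : ℝ) ^ n * A k) by ring, hN]
    rw [Int.floor_eq_iff]
    push_cast
    constructor
    · have : 0 ≤ (k : ℝ) ^ l * f := by positivity
      linarith
    · linarith
  rw [digit, h4]
  obtain ⟨m, rfl⟩ := Nat.exists_eq_add_of_le hl1
  rw [pow_add, pow_one, mul_assoc]
  exact Int.mul_emod_right _ _

end Pool.Agent.H3.ErdBor
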