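import Mathlib

set_option autoImplicit false

namespace Pool.Agent.H3.ErdBor

/-- The number `A_k = ∑_{n ≥ 1} 1 / (k ^ n - 1)`. -/
noncomputable def A (k : ℕ) : ℝ := ∑' n : ℕ, 1 / ((k : ℝ) ^ (n + 1) - 1)

/-- The `n`-th digit after the radix point of the real number `x` in base `k` (for `n ≥ 1`). -/
noncomputable def digit (k : ℕ) (x : ℝ) (n : ℕ) : ℤ := ⌊(k : ℝ) ^ n * x⌋ % (k : ℤ)

/-- A sequence `a` is `k`-automatic if there is a finite automaton with output (states `σ`,
transitions `δ`, initial state `q₀`, output map `out`) which computes `a n` from the canonical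
base-`k` representation of `n`, read starting from the most significant digit, or read starting
from the least significant digit. (Mathlib's `Nat.digits k n` lists the digits of `n` starting
from the least significant one, without leading zeros.) -/
def IsAutomatic (k : ℕ) (a : ℕ → ℤ) : Prop :=
  ∃ (σ : Type) (_ : Finite σ) (δ : σ → ℕ → σ) (q₀ : σ) (out : σ → ℤ),
    (∀ n, a n = out ((Nat.digits k n).reverse.foldl δ q₀)) ∨
    (∀ n, a n = out ((Nat.digits k n).foldl δ q₀))

end Pool.Agent.H3.ErdBor
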