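import Pool.Agent.H3.ErdBor.Window

set_option autoImplicit false

namespace Pool.Agent.H3.ErdBor

open Finset Filter

/-- averaging: find a good window whose tail is small -/
lemma exists_window {k u J a : ℕ} (hk : 2 ≤ k) (M K : ℕ) (hM : 0 < M)
    (hcop : ∀ i, J < i → i ≤ J + (2 * u + 1) → Nat.Coprime (a + i) M)
    (hK : 2 ^ u ≤ K) (hu : a + M * K + J + (2 * u + 1) + 2 ≤ 4 ^ u) :
    ∃ l, l < K ∧ S k (a + M * l + J) ≤ 2 * u + 3 := by
  have hk' : (2 : ℝ) ≤ k := by exact_mod_cast hk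
  by_contra hcon
  push Not at hcon
  have hK0 : 0 < K := lt_of_lt_of_le (by positivity) hK
  -- pointwise
  have h1 : ∀ l, l < K → (2 * (u + 1) : ℝ) < 
      ∑ j ∈ range (2 * u + 1), (tau (a + M * l + J + 1 + j) : ℝ) / (2 : ℝ) ^ (j + 1) := by
    intro l hl
    have h2 := hcon l hl
    rw [S_iter hk _ (2 * u + 1)] at h2
    have h3 : S k (a + M * l + J + (2 * u + 1)) / (k : ℝ) ^ (2 * u + 1) ≤ 1 := by
      rw [div_le_one (by positivity)]
      have h4 : a + M * l + J + (2 * u + 1) + 2 ≤ 4 ^ u := by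
        have : M * l ≤ M * K := Nat.mul_le_mul_left _ hl.le
        omega
      calc S k (a + M * l + J + (2 * u + 1)) ≤ ((a + M * l + J + (2 * u + 1) : ℕ) : ℝ) + 2 := S_le hk _
        _ ≤ ((4 ^ u : ℕ) : ℝ) := by exact_mod_cast h4
        _ = (2 : ℝ) ^ (2 * u) := by rw [pow_mul]; norm_num
        _ ≤ (2 : ℝ) ^ (2 * u + 1) := pow_le_pow_right₀ (by norm_num) (by omega)
        _ ≤ (k : ℝ) ^ (2 * u + 1) := by gcongr
    have h5 : ∑ j ∈ range (2 * u + 1), (tau (a + M * l + J + 1 + j) : ℝ) / (k : ℝ) ^ (j + 1) ≤ 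
        ∑ j ∈ range (2 * u + 1), (tau (a + M * l + J + 1 + j) : ℝ) / (2 : ℝ) ^ (j + 1) := by
      refine Finset.sum_le_sum fun j _ => ?_
      gcongr
    linarith
  have h2 : (K : ℝ) * (2 * (u + 1)) < ∑ l ∈ range K, 
      ∑ j ∈ range (2 * u + 1), (tau (a + M * l + J + 1 + j) : ℝ) / (2 : ℝ) ^ (j + 1) := by
    have : (K : ℝ) * (2 * (u + 1)) = ∑ l ∈ range K, (2 * (u + 1) : ℝ) := by simp
    rw [this]
    apply Finset.sum_lt_sum_of_nonempty
    · exact Finset.nonempty_range_iff.2 hK0.ne'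
    · intro l hl
      exact h1 l (Finset.mem_range.1 hl)
  rw [Finset.sum_comm] at h2
  have h3 : ∀ j ∈ range (2 * u + 1), ∑ l ∈ range K, (tau (a + M * l + J + 1 + j) : ℝ) / (2 : ℝ) ^ (j + 1) ≤ 
      (K : ℝ) * (2 * (u + 1)) * (1 / 2) ^ (j + 1) := by
    intro j hj
    rw [Finset.mem_range] at hj
    have h4 : ∑ l ∈ range K, tau ((a + (J + 1 + j)) + M * l) ≤ 2 * K * (u + 1) := by
      apply sum_tau_le (by omega) (hcop _ (by omega) (by omega)) (by omega) hK hM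
    have h5 : ((∑ l ∈ range K, tau ((a + (J + 1 + j)) + M * l) : ℕ) : ℝ) ≤ ((2 * K * (u + 1) : ℕ) : ℝ) := by
      exact_mod_cast h4
    push_cast at h5
    rw [← Finset.sum_div, div_le_iff₀ (by positivity)]
    have h6 : (1 / 2 : ℝ) ^ (j + 1) * 2 ^ (j + 1) = 1 := by rw [← mul_pow]; norm_num
    have h7 : ∑ l ∈ range K, (tau (a + M * l + J + 1 + j) : ℝ) = 
        ∑ l ∈ range K, (tau ((a + (J + 1 + j)) + M * l) : ℝ) := by
      refine Finset.sum_congr rfl fun l _ => ?_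
      congr 2; ring
    rw [h7, mul_assoc, h6]
    linarith
  have h4 := Finset.sum_le_sum h3
  rw [← Finset.mul_sum] at h4
  have h5 : ∑ j ∈ range (2 * u + 1), (1 / 2 : ℝ) ^ (j + 1) ≤ 1 := by
    have h6 : ∀ n, ∑ j ∈ range n, (1 / 2 : ℝ) ^ (j + 1) = 1 - (1 / 2) ^ n := by
      intro n
      induction n with
      | zero => simp
      | succ n ih => rw [Finset.sum_range_succ, ih]; ring
    rw [h6]
    have : (0 : ℝ) ≤ (1 / 2) ^ (2 * u + 1) := by positivity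
    linarith
  have h6 : (0 : ℝ) ≤ (K : ℝ) * (2 * (u + 1)) := by positivity
  nlinarith

lemma numeric (k L D : ℕ) (hk : 2 ≤ k) : ∃ u0 : ℕ, ∀ u, u0 ≤ u → ∀ J s, J = L + Nat.size (2 * u + 3) → 
    s = J + (2 * u + 1) → 
    D * ((2 ^ (J ^ 2) * s) ^ (J * k * J) * (2 ^ u + 1) + J + 1) ≤ 4 ^ (u - 2) ∧
      J + (2 * u + 1) + 2 + 2 ≤ 4 ^ (u - 1) := by
  -- J large
  obtain ⟨J0, hJ0⟩ : ∃ J0 : ℕ, ∀ J, J0 ≤ J → 2 ^ (L + 1) * (2 * (D + 3 * k * J ^ 4 + 6) + 3) ≤ 2 ^ J := by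
    have h := tendsto_pow_const_div_const_pow_of_one_lt 4 (show (1 : ℝ) < 2 by norm_num)
    set C : ℕ := 2 ^ (L + 1) * (2 * (D + 3 * k + 6) + 3) with hC
    have hC0 : (0 : ℝ) < C := by rw [hC]; positivity
    have h1 := h.eventually (gt_mem_nhds (show (0 : ℝ) < 1 / C by positivity))
    obtain ⟨J0, hJ0⟩ := Filter.eventually_atTop.1 h1
    refine ⟨max J0 1, fun J hJ => ?_⟩
    have h2 := hJ0 J (le_trans (le_max_left _ _) hJ)
    have h3 : 1 ≤ J := le_trans (le_max_right _ _) hJ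
    rw [div_lt_div_iff₀ (by positivity) hC0, one_mul] at h2
    have h4 : J ^ 4 * C < 2 ^ J := by exact_mod_cast h2
    have h5 : 1 ≤ J ^ 4 := Nat.one_le_pow _ _ h3
    calc 2 ^ (L + 1) * (2 * (D + 3 * k * J ^ 4 + 6) + 3) ≤ 2 ^ (L + 1) * (J ^ 4 * (2 * (D + 3 * k + 6) + 3)) := by
          apply Nat.mul_le_mul_left
          nlinarith
      _ = J ^ 4 * C := by rw [hC]; ring
      _ ≤ 2 ^ J := h4.le
  refine ⟨2 ^ J0 + 20, fun u hu J s hJ hs => ?_⟩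
  have hsz : 2 * u + 3 < 2 ^ Nat.size (2 * u + 3) := Nat.lt_size_self _
  have hJ1 : J0 ≤ J := by
    have : J0 < Nat.size (2 * u + 3) := Nat.lt_size.2 (by omega)
    omega
  have hJp : 1 ≤ J := by
    have : 0 < Nat.size (2 * u + 3) := Nat.size_pos.2 (by omega)
    omega
  have hsz2 : 2 ^ Nat.size (2 * u + 3) ≤ 2 * (2 * u + 3) := by
    have h0 : 0 < Nat.size (2 * u + 3) := Nat.size_pos.2 (by omega)
    have h1 : 2 ^ (Nat.size (2 * u + 3) - 1) ≤ 2 * u + 3 := Nat.lt_size.1 (by omega)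
    calc 2 ^ Nat.size (2 * u + 3) = 2 * 2 ^ (Nat.size (2 * u + 3) - 1) := by
          rw [← pow_succ']; congr 1; omega
      _ ≤ _ := Nat.mul_le_mul_left _ h1
  -- key inequality
  have hmain : D + 3 * k * J ^ 4 + 6 ≤ u := by
    have h1 := hJ0 J hJ1
    have h2 : 2 ^ J ≤ 2 ^ L * (2 * (2 * u + 3)) := by
      rw [hJ, pow_add]; exact Nat.mul_le_mul_left _ hsz2
    have h3 : 2 ^ (L + 1) * (2 * (D + 3 * k * J ^ 4 + 6) + 3) ≤ 2 ^ (L + 1) * (2 * u + 3) := by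
      calc _ ≤ 2 ^ J := h1
        _ ≤ 2 ^ L * (2 * (2 * u + 3)) := h2
        _ = _ := by ring
    have h4 := Nat.le_of_mul_le_mul_left h3 (by positivity)
    omega
  have h2u : 2 * u + 3 < 2 ^ J := by
    calc 2 * u + 3 < 2 ^ Nat.size (2 * u + 3) := hsz
      _ ≤ 2 ^ J := Nat.pow_le_pow_right (by norm_num) (by omega)
  have hs2 : s ≤ 2 ^ (J + 1) := by
    have : J < 2 ^ J := Nat.lt_two_pow_self
    rw [pow_succ]; omega
  have hJu : J + 1 ≤ u := by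
    have h5 : J ≤ J ^ 4 := Nat.le_self_pow (by norm_num) _
    nlinarith
  have hu2 : u + 1 ≤ 2 ^ u := Nat.lt_two_pow_self
  have hJ0p : 1 ≤ 2 ^ J0 := Nat.one_le_two_pow
  obtain ⟨v, rfl⟩ : ∃ v, u = v + 2 := ⟨u - 2, by omega⟩
  constructor
  · have h1 : (2 ^ (J ^ 2) * s) ^ (J * k * J) ≤ 2 ^ (3 * k * J ^ 4) := by
      calc (2 ^ (J ^ 2) * s) ^ (J * k * J) ≤ (2 ^ (J ^ 2) * 2 ^ (J + 1)) ^ (J * k * J) := by gcongr
        _ = 2 ^ ((J ^ 2 + (J + 1)) * (J * k * J)) := by rw [← pow_add, ← pow_mul]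
        _ ≤ 2 ^ (3 * k * J ^ 4) := by
            apply Nat.pow_le_pow_right (by norm_num)
            have h6 : J ^ 2 + (J + 1) ≤ 3 * J ^ 2 := by nlinarith
            calc (J ^ 2 + (J + 1)) * (J * k * J) ≤ 3 * J ^ 2 * (J * k * J) := Nat.mul_le_mul_right _ h6
              _ = 3 * k * J ^ 4 := by ring
    have h2 : D ≤ 2 ^ D := Nat.lt_two_pow_self.le
    have h3 : 1 ≤ 2 ^ (3 * k * J ^ 4) := Nat.one_le_two_pow
    calc D * ((2 ^ (J ^ 2) * s) ^ (J * k * J) * (2 ^ (v + 2) + 1) + J + 1) 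
        ≤ 2 ^ D * (2 ^ (3 * k * J ^ 4) * (2 ^ (v + 2) + 2 ^ (v + 2)) + 2 ^ (3 * k * J ^ 4) * 2 ^ (v + 2)) := by
          apply Nat.mul_le_mul h2
          have h4 : (2 ^ (J ^ 2) * s) ^ (J * k * J) * (2 ^ (v + 2) + 1) ≤ 2 ^ (3 * k * J ^ 4) * (2 ^ (v + 2) + 2 ^ (v + 2)) := by
            apply Nat.mul_le_mul h1
            have := Nat.one_le_two_pow (n := v + 2)
            omega
          have h5 : J + 1 ≤ 2 ^ (3 * k * J ^ 4) * 2 ^ (v + 2) := by nlinarith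
          omega
      _ = 3 * 2 ^ (D + 3 * k * J ^ 4 + (v + 2)) := by rw [pow_add, pow_add]; ring
      _ ≤ 4 * 2 ^ (D + 3 * k * J ^ 4 + (v + 2)) := by omega
      _ = 2 ^ (D + 3 * k * J ^ 4 + (v + 2) + 2) := by rw [pow_add _ _ 2]; ring
      _ ≤ 2 ^ (2 * v) := Nat.pow_le_pow_right (by norm_num) (by omega)
      _ = 4 ^ (v + 2 - 2) := by rw [pow_mul]; norm_num
  · rw [show v + 2 - 1 = v + 1 by omega]
    have h1 : v < 2 ^ v := Nat.lt_two_pow_self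
    have h4 : (4 : ℕ) ^ v = 2 ^ v * 2 ^ v := by rw [← mul_pow]; norm_num
    rw [pow_succ, h4]
    have h5 : 18 ≤ v := by omega
    nlinarith

/-- Lemma A -/
theorem lemmaA (k L D : ℕ) (hk : 2 ≤ k) (hD : 1 ≤ D) : ∃ Y0 : ℕ, ∀ Y, Y0 ≤ Y → ∃ n J, Y ≤ n ∧ 
    D * (n + J + 1) ≤ D * Y + Y ∧ Good k n J ∧ S k (n + J) * (k : ℝ) ^ L < (k : ℝ) ^ J := by
  have hk' : (2 : ℝ) ≤ k := by exact_mod_cast hk
  obtain ⟨u0, hu0⟩ := numeric k L D hk
  refine ⟨4 ^ (u0 + 2), fun Y hY => ?_⟩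
  -- define u
  have hY0 : Y ≠ 0 := by
    have : 0 < 4 ^ (u0 + 2) := by positivity
    omega
  set u := Nat.log 4 Y + 2 with hu
  have hu1 : 4 ^ (u - 2) ≤ Y := by rw [hu, Nat.add_sub_cancel]; exact Nat.pow_log_le_self 4 hY0
  have hu2 : Y < 4 ^ (u - 1) := by
    rw [hu, show Nat.log 4 Y + 2 - 1 = Nat.log 4 Y + 1 by omega]
    exact Nat.lt_pow_succ_log_self (by norm_num) Y
  have huu0 : u0 ≤ u := by
    have : u0 + 2 ≤ Nat.log 4 Y := Nat.le_log_of_pow_le (by norm_num) hY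
    omega
  set J := L + Nat.size (2 * u + 3) with hJ
  set s := J + (2 * u + 1) with hs
  obtain ⟨hn1, hn2⟩ := hu0 u huu0 J s rfl rfl
  have hs0 : s ≠ 0 := by omega
  have hMle := Mod_le hs0 k J
  have hMpos := Mod_pos hs0 k J
  set M := Mod k s J with hM
  obtain ⟨r, hr⟩ := exists_crt hk hs0 J
  -- a in [Y, Y+M)
  obtain ⟨a, ha1, ha2, ha3⟩ : ∃ a, Y ≤ a ∧ a < Y + M ∧ a ≡ r [MOD M] := by
    refine ⟨Y + ((r + (M - 1) * Y) % M), by omega, ?_, ?_⟩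
    · have := Nat.mod_lt (r + (M - 1) * Y) hMpos
      omega
    · have h1 : Y + (r + (M - 1) * Y) % M ≡ Y + (r + (M - 1) * Y) [MOD M] := 
        Nat.ModEq.add_left _ (Nat.mod_modEq _ _)
      have h2 : Y + (r + (M - 1) * Y) = r + M * Y := by
        obtain ⟨x, hx⟩ := Nat.exists_eq_add_of_le (show 1 ≤ M from hMpos)
        rw [hx, Nat.add_sub_cancel_left]; ring
      rw [h2] at h1
      exact h1.trans (by simp [Nat.ModEq])
  have hbig : D * (M * (2 ^ u + 1) + J + 1) ≤ Y := by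
    refine le_trans (Nat.mul_le_mul_left _ ?_) (hn1.trans hu1)
    have := Nat.mul_le_mul_right (2 ^ u + 1) hMle
    omega
  have hbig1 : M * (2 ^ u + 1) + J + 1 ≤ Y := by nlinarith
  obtain ⟨l, hl, hSl⟩ := exists_window (a := a) (J := J) (u := u) hk M (2 ^ u) hMpos 
    (fun i h1 h2 => (hr a ha3).2 i h1 h2) le_rfl (by
      have h4 : 4 ^ u = 4 * 4 ^ (u - 1) := by rw [← pow_succ']; congr 1
      have h5 : M * (2 ^ u + 1) = M * 2 ^ u + M := by ring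
      omega)
  refine ⟨a + M * l, J, by omega, ?_, ?_, ?_⟩
  · have h1 : a + M * l + J + 1 ≤ Y + (M * (2 ^ u + 1) + J + 1) := by
      have : M * l ≤ M * 2 ^ u := Nat.mul_le_mul_left _ hl.le
      have h5 : M * (2 ^ u + 1) = M * 2 ^ u + M := by ring
      omega
    calc D * (a + M * l + J + 1) ≤ D * (Y + (M * (2 ^ u + 1) + J + 1)) := Nat.mul_le_mul_left _ h1
      _ = D * Y + D * (M * (2 ^ u + 1) + J + 1) := by ring
      _ ≤ D * Y + Y := by omega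
  · refine (hr _ ?_).1
    have : a + M * l ≡ a [MOD M] := by simp [Nat.ModEq]
    exact this.trans ha3
  · have h1 : ((2 * u + 3 : ℕ) : ℝ) < (k : ℝ) ^ Nat.size (2 * u + 3) := by
      calc ((2 * u + 3 : ℕ) : ℝ) < ((2 ^ Nat.size (2 * u + 3) : ℕ) : ℝ) := by exact_mod_cast Nat.lt_size_self _
        _ = (2 : ℝ) ^ Nat.size (2 * u + 3) := by push_cast; rfl
        _ ≤ _ := by gcongr
    push_cast at h1
    rw [hJ, pow_add, mul_comm]
    gcongr
    linarith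

end Pool.Agent.H3.ErdBor
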