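import Pool.Agent.H3.ErdBor.Basic

set_option autoImplicit false

namespace Pool.Agent.H3.ErdBor

open Finset

/-! ### primes -/

noncomputable def qs (s : ℕ) : ℕ → ℕ
  | 0 => if h : s ≠ 0 then (Nat.exists_prime_lt_and_le_two_mul s h).choose else 2
  | n + 1 => if h : qs s n ≠ 0 then (Nat.exists_prime_lt_and_le_two_mul (qs s n) h).choose else 2

lemma qs_zero {s : ℕ} (h : s ≠ 0) : (qs s 0).Prime ∧ s < qs s 0 ∧ qs s 0 ≤ 2 * s := by
  rw [qs, dif_pos h]
  exact (Nat.exists_prime_lt_and_le_two_mul s h).choose_spec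

lemma qs_prime {s : ℕ} (h : s ≠ 0) (n : ℕ) : (qs s n).Prime := by
  induction n with
  | zero => exact (qs_zero h).1
  | succ n ih =>
    rw [qs, dif_pos ih.ne_zero]
    exact (Nat.exists_prime_lt_and_le_two_mul (qs s n) ih.ne_zero).choose_spec.1

lemma qs_succ {s : ℕ} (h : s ≠ 0) (n : ℕ) : qs s n < qs s (n + 1) ∧ qs s (n + 1) ≤ 2 * qs s n := by
  rw [qs, dif_pos (qs_prime h n).ne_zero]
  exact (Nat.exists_prime_lt_and_le_two_mul (qs s n) (qs_prime h n).ne_zero).choose_spec.2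

lemma qs_strictMono {s : ℕ} (h : s ≠ 0) : StrictMono (qs s) := strictMono_nat_of_lt_succ fun n => (qs_succ h n).1

lemma qs_gt {s : ℕ} (h : s ≠ 0) (n : ℕ) : s < qs s n :=
  lt_of_lt_of_le (qs_zero h).2.1 ((qs_strictMono h).monotone (Nat.zero_le n))

lemma qs_le {s : ℕ} (h : s ≠ 0) (n : ℕ) : qs s n ≤ 2 ^ (n + 1) * s := by
  induction n with
  | zero => simpa using (qs_zero h).2.2
  | succ n ih =>
    calc qs s (n + 1) ≤ 2 * qs s n := (qs_succ h n).2
      _ ≤ 2 * (2 ^ (n + 1) * s) := Nat.mul_le_mul_left _ ih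
      _ = 2 ^ (n + 1 + 1) * s := by ring

/-- product of `J` primes -/
noncomputable def QQ (s J t : ℕ) : ℕ := ∏ i ∈ range J, qs s (t * J + i)

lemma QQ_pos {s : ℕ} (h : s ≠ 0) (J t : ℕ) : 0 < QQ s J t :=
  Finset.prod_pos fun i _ => (qs_prime h _).pos

lemma prime_dvd_QQ {s : ℕ} (h : s ≠ 0) {J t p : ℕ} (hp : p.Prime) (hd : p ∣ QQ s J t) : 
    ∃ i, i < J ∧ p = qs s (t * J + i) := by
  obtain ⟨i, hi, hd⟩ := (hp.prime.dvd_finsetProd_iff _).1 hd
  exact ⟨i, Finset.mem_range.1 hi, (Nat.prime_dvd_prime_iff_eq hp (qs_prime h _)).1 hd⟩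

lemma QQ_coprime {s : ℕ} (h : s ≠ 0) {J t t' : ℕ} (ht : t ≠ t') : 
    Nat.Coprime (QQ s J t) (QQ s J t') := by
  rw [Nat.coprime_iff_gcd_eq_one]
  by_contra hne
  obtain ⟨p, hp, hd⟩ := Nat.exists_prime_and_dvd hne
  obtain ⟨i, hi, h1⟩ := prime_dvd_QQ h hp (hd.trans (Nat.gcd_dvd_left _ _))
  obtain ⟨j, hj, h2⟩ := prime_dvd_QQ h hp (hd.trans (Nat.gcd_dvd_right _ _))
  have h3 : t * J + i = t' * J + j := (qs_strictMono h).injective (h1.symm.trans h2)
  apply ht
  rcases lt_trichotomy t t' with h4 | h4 | h4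
  · nlinarith
  · exact h4
  · nlinarith

lemma tau_prod_primes (k : ℕ) (hk : 1 ≤ k) (f : ℕ → ℕ) (hf : ∀ i, (f i).Prime) (hinj : Function.Injective f) 
    (J : ℕ) : tau ((∏ i ∈ range J, f i) ^ (k - 1)) = k ^ J := by
  induction J with
  | zero => simp [tau]
  | succ J ih =>
    rw [Finset.prod_range_succ, mul_pow]
    have hc : Nat.Coprime ((∏ i ∈ range J, f i) ^ (k - 1)) (f J ^ (k - 1)) := by
      apply Nat.Coprime.pow
      apply Nat.Coprime.prod_left
      intro i hi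
      rw [Nat.coprime_primes (hf _) (hf _)]
      intro he
      have := hinj he
      rw [Finset.mem_range] at hi
      omega
    rw [tau, Nat.Coprime.card_divisors_mul hc, ← tau, ih, Nat.divisors_prime_pow (hf J), Finset.card_map,
      Finset.card_range]
    rw [show k - 1 + 1 = k by omega, pow_succ]

lemma tau_QQ {s : ℕ} (h : s ≠ 0) (k : ℕ) (hk : 1 ≤ k) (J t : ℕ) : tau (QQ s J t ^ (k - 1)) = k ^ J := 
  tau_prod_primes k hk (fun i => qs s (t * J + i)) (fun i => qs_prime h _) 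
    (fun a b hab => by have := (qs_strictMono h).injective hab; omega) J

lemma dvd_tau_of_modEq {k Q J m : ℕ} (hk : 2 ≤ k) (hQ : 0 < Q) (hτ : tau (Q ^ (k - 1)) = k ^ J) 
    (hm : m ≡ Q ^ (k - 1) [MOD Q ^ k]) : k ^ J ∣ tau m := by
  -- m = Q^(k-1) * u with u coprime to Q
  have h1 : Q ^ k = Q ^ (k - 1) * Q := by rw [← pow_succ]; congr 1; omega
  have hd : Q ^ (k - 1) ∣ m := by
    have h2 : m ≡ Q ^ (k - 1) [MOD Q ^ (k - 1)] := hm.of_dvd (by rw [h1]; exact dvd_mul_right _ _)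
    have h3 : m ≡ 0 [MOD Q ^ (k - 1)] := h2.trans (by simp [Nat.ModEq])
    exact (Nat.modEq_zero_iff_dvd).1 h3
  obtain ⟨u, rfl⟩ := hd
  have hu : u ≡ 1 [MOD Q] := by
    have h4 : Q ^ (k - 1) * u ≡ Q ^ (k - 1) * 1 [MOD Q ^ (k - 1) * Q] := by rwa [mul_one, ← h1]
    exact Nat.ModEq.mul_left_cancel' (by positivity) h4
  have hc : Nat.Coprime (Q ^ (k - 1)) u := by
    apply Nat.Coprime.pow_left
    have := hu.gcd_eq
    rw [Nat.gcd_one_left] at this
    rw [Nat.coprime_comm]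
    exact this
  rw [tau, Nat.Coprime.card_divisors_mul hc]
  exact Dvd.intro _ (by rw [← hτ]; rfl)

/-- the modulus -/
noncomputable def Mod (k s J : ℕ) : ℕ := ∏ t ∈ range J, QQ s J t ^ k

lemma Mod_pos {s : ℕ} (h : s ≠ 0) (k J : ℕ) : 0 < Mod k s J :=
  Finset.prod_pos fun i _ => pow_pos (QQ_pos h _ _) _

lemma exists_crt {k s : ℕ} (hk : 2 ≤ k) (h : s ≠ 0) (J : ℕ) : ∃ r, ∀ n, n ≡ r [MOD Mod k s J] → 
    Good k n J ∧ ∀ i, J < i → i ≤ s → Nat.Coprime (n + i) (Mod k s J) := by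
  have hcop : ∀ t ∈ range J, ∀ t' ∈ range J, t ≠ t' → Nat.Coprime (QQ s J t ^ k) (QQ s J t' ^ k) := 
    fun t _ t' _ htt => Nat.Coprime.pow _ _ (QQ_coprime h htt)
  obtain ⟨r, hr⟩ := Nat.chineseRemainderOfFinset 
    (fun t => QQ s J t ^ (k - 1) + (QQ s J t ^ k - 1) * (t + 1)) (fun t => QQ s J t ^ k) (range J)
    (fun t _ => (pow_pos (QQ_pos h _ _) _).ne') hcop
  refine ⟨r, fun n hn => ?_⟩
  have key : ∀ t, t < J → n + (t + 1) ≡ QQ s J t ^ (k - 1) [MOD QQ s J t ^ k] := by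
    intro t ht
    have h1 : n ≡ QQ s J t ^ (k - 1) + (QQ s J t ^ k - 1) * (t + 1) [MOD QQ s J t ^ k] := 
      (hn.of_dvd (Finset.dvd_prod_of_mem _ (Finset.mem_range.2 ht))).trans (hr t (Finset.mem_range.2 ht))
    have h2 := h1.add_right (t + 1)
    have h3 : QQ s J t ^ (k - 1) + (QQ s J t ^ k - 1) * (t + 1) + (t + 1) = 
        QQ s J t ^ (k - 1) + QQ s J t ^ k * (t + 1) := by
      have h4 : 1 ≤ QQ s J t ^ k := pow_pos (QQ_pos h _ _) _
      obtain ⟨x, hx⟩ := Nat.exists_eq_add_of_le h4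
      rw [hx, Nat.add_sub_cancel_left]
      ring
    rw [h3] at h2
    exact h2.trans (by simp [Nat.ModEq])
  constructor
  · intro j hj1 hj2
    obtain ⟨t, rfl⟩ : ∃ t, j = t + 1 := ⟨j - 1, by omega⟩
    exact dvd_tau_of_modEq hk (QQ_pos h _ _) (tau_QQ h k (by omega) J t) (key t (by omega))
  · intro i hi1 hi2
    rw [Nat.coprime_iff_gcd_eq_one]
    by_contra hne
    obtain ⟨p, hp, hd⟩ := Nat.exists_prime_and_dvd hne
    have h1 := hd.trans (Nat.gcd_dvd_left _ _)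
    have h2 := hd.trans (Nat.gcd_dvd_right _ _)
    obtain ⟨t, ht, h3⟩ := (hp.prime.dvd_finsetProd_iff _).1 h2
    rw [Finset.mem_range] at ht
    have h4 : p ∣ QQ s J t := hp.dvd_of_dvd_pow h3
    obtain ⟨l, hl, h5⟩ := prime_dvd_QQ h hp h4
    have h6 : s < p := by rw [h5]; exact qs_gt h _
    have h7 : p ∣ n + (t + 1) := by
      have h8 : n + (t + 1) ≡ QQ s J t ^ (k - 1) [MOD p] := (key t ht).of_dvd h3
      have h9 : QQ s J t ^ (k - 1) ≡ 0 [MOD p] := (Nat.modEq_zero_iff_dvd).2 (h4.trans (dvd_pow_self _ (by omega)))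
      exact (Nat.modEq_zero_iff_dvd).1 (h8.trans h9)
    have h10 : p ∣ (n + i) - (n + (t + 1)) := Nat.dvd_sub h1 h7
    have h11 : (n + i) - (n + (t + 1)) = i - (t + 1) := by omega
    rw [h11] at h10
    have := Nat.le_of_dvd (by omega) h10
    omega

lemma QQ_le {s : ℕ} (h : s ≠ 0) {J t : ℕ} (ht : t < J) : QQ s J t ≤ (2 ^ (J ^ 2) * s) ^ J := by
  unfold QQ
  calc ∏ i ∈ range J, qs s (t * J + i) ≤ ∏ i ∈ range J, (2 ^ (J ^ 2) * s) := by
        refine Finset.prod_le_prod' fun i hi => ?_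
        rw [Finset.mem_range] at hi
        refine (qs_le h _).trans (Nat.mul_le_mul_right _ (Nat.pow_le_pow_right (by norm_num) ?_))
        have : (t + 1) * J ≤ J * J := Nat.mul_le_mul_right _ ht
        nlinarith
    _ = _ := by simp

lemma Mod_le {s : ℕ} (h : s ≠ 0) (k J : ℕ) : Mod k s J ≤ (2 ^ (J ^ 2) * s) ^ (J * k * J) := by
  unfold Mod
  calc ∏ t ∈ range J, QQ s J t ^ k ≤ ∏ t ∈ range J, ((2 ^ (J ^ 2) * s) ^ J) ^ k := by
        refine Finset.prod_le_prod' fun t ht => ?_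
        exact Nat.pow_le_pow_left (QQ_le h (Finset.mem_range.1 ht)) _
    _ = _ := by simp [← pow_mul]

/-! ### divisor sums -/

lemma tau_le_two {m u : ℕ} (hm : 0 < m) (hmu : m < 4 ^ u) : 
    tau m ≤ 2 * ((Ico 1 (2 ^ u)).filter fun d => d ∣ m).card := by
  have h4 : (4 : ℕ) ^ u = 2 ^ u * 2 ^ u := by rw [← mul_pow]; norm_num
  have h1 : (m.divisors.filter (· < 2 ^ u)).card ≤ ((Ico 1 (2 ^ u)).filter fun d => d ∣ m).card := by
    apply Finset.card_le_card
    intro d hd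
    simp only [Finset.mem_filter, Nat.mem_divisors, Finset.mem_Ico] at hd ⊢
    exact ⟨⟨Nat.pos_of_dvd_of_pos hd.1.1 hm, hd.2⟩, hd.1.1⟩
  have h2 : (m.divisors.filter (fun d => ¬ d < 2 ^ u)).card ≤ ((Ico 1 (2 ^ u)).filter fun d => d ∣ m).card := by
    apply Finset.card_le_card_of_injOn (fun d => m / d)
    · intro d hd
      simp only [Finset.coe_filter, Nat.mem_divisors, Set.mem_ofPred_eq, Finset.mem_Ico] at hd ⊢
      obtain ⟨⟨hd1, hd2⟩, hd3⟩ := hd
      refine ⟨⟨Nat.div_pos (Nat.le_of_dvd hm hd1) (Nat.pos_of_dvd_of_pos hd1 hm), ?_⟩, Nat.div_dvd_of_dvd hd1⟩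
      rw [Nat.div_lt_iff_lt_mul (Nat.pos_of_dvd_of_pos hd1 hm)]
      push Not at hd3
      calc m < 4 ^ u := hmu
        _ = 2 ^ u * 2 ^ u := h4
        _ ≤ 2 ^ u * d := Nat.mul_le_mul_left _ hd3
    · intro d hd e he hde
      simp only [Finset.coe_filter, Nat.mem_divisors, Set.mem_ofPred_eq] at hd he hde
      have h5 := Nat.div_mul_cancel hd.1.1
      have h6 := Nat.div_mul_cancel he.1.1
      rw [hde] at h5
      have h7 : 0 < m / e := Nat.div_pos (Nat.le_of_dvd hm he.1.1) (Nat.pos_of_dvd_of_pos he.1.1 hm)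
      exact Nat.eq_of_mul_eq_mul_left h7 (h5.trans h6.symm)
  have h3 := Finset.card_filter_add_card_filter_not (s := m.divisors) (fun d => d < 2 ^ u)
  unfold tau
  omega

lemma count_ap {M a d K : ℕ} (hd : 0 < d) (hc : Nat.Coprime a M) :
    ((range K).filter fun l => d ∣ a + M * l).card ≤ K / d + 1 := by
  by_cases hdM : Nat.Coprime d M
  · have h : ((range K).filter fun l => d ∣ a + M * l).card ≤ (range (K / d + 1)).card := by
      apply Finset.card_le_card_of_injOn (fun k => k / d)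
      · intro k hk
        simp only [Finset.coe_filter, Finset.mem_range, Set.mem_ofPred_eq] at hk
        simp only [Finset.coe_range, Set.mem_Iio]
        exact Nat.lt_succ_of_le (Nat.div_le_div_right hk.1.le)
      · intro k hk l hl hkl
        simp only [Finset.coe_filter, Finset.mem_range, Set.mem_ofPred_eq] at hk hl
        simp only at hkl
        have h1 : a + M * k ≡ a + M * l [MOD d] := 
          ((Nat.modEq_zero_iff_dvd).2 hk.2).trans ((Nat.modEq_zero_iff_dvd).2 hl.2).symm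
        have h2 : M * k ≡ M * l [MOD d] := Nat.ModEq.add_left_cancel' a h1
        have h3 : k ≡ l [MOD d] := Nat.ModEq.cancel_left_of_coprime hdM h2
        rw [← Nat.div_add_mod k d, ← Nat.div_add_mod l d, hkl, h3]
    simpa using h
  · have : ((range K).filter fun l => d ∣ a + M * l) = ∅ := by
      rw [Finset.filter_eq_empty_iff]
      intro l _ hdl
      apply hdM
      have h1 : Nat.gcd d M ∣ a + M * l := (Nat.gcd_dvd_left _ _).trans hdl
      have h2 : Nat.gcd d M ∣ a := (Nat.dvd_add_left ((Nat.gcd_dvd_right d M).mul_right l)).1 h1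
      have h3 : Nat.gcd d M ∣ Nat.gcd a M := Nat.dvd_gcd h2 (Nat.gcd_dvd_right _ _)
      rw [hc] at h3
      exact Nat.dvd_one.1 h3
    rw [this]; simp

lemma sum_div_le (K u : ℕ) : ∑ d ∈ Ico 1 (2 ^ u), K / d ≤ K * u := by
  induction u with
  | zero => simp
  | succ u ih =>
    have h1 : ∑ d ∈ Ico 1 (2 ^ (u + 1)), K / d = ∑ d ∈ Ico 1 (2 ^ u), K / d + ∑ d ∈ Ico (2 ^ u) (2 ^ (u + 1)), K / d := by
      rw [Finset.sum_Ico_consecutive _ Nat.one_le_two_pow (Nat.pow_le_pow_right (by norm_num) (by omega))]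
    have h2 : ∑ d ∈ Ico (2 ^ u) (2 ^ (u + 1)), K / d ≤ K := by
      calc ∑ d ∈ Ico (2 ^ u) (2 ^ (u + 1)), K / d ≤ ∑ d ∈ Ico (2 ^ u) (2 ^ (u + 1)), K / 2 ^ u := by
            refine Finset.sum_le_sum fun d hd => ?_
            rw [Finset.mem_Ico] at hd
            exact Nat.div_le_div_left hd.1 (by positivity)
        _ = 2 ^ u * (K / 2 ^ u) := by simp [pow_succ]; left; omega
        _ ≤ K := Nat.mul_div_le _ _
    rw [h1, mul_add, mul_one]
    omega

lemma sum_tau_le {M a K u : ℕ} (ha : 0 < a) (hc : Nat.Coprime a M) (hu : a + M * K ≤ 4 ^ u) (hK : 2 ^ u ≤ K) 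
    (hM : 0 < M) :
    ∑ l ∈ range K, tau (a + M * l) ≤ 2 * K * (u + 1) := by
  calc ∑ l ∈ range K, tau (a + M * l) ≤ ∑ l ∈ range K, 2 * ((Ico 1 (2 ^ u)).filter fun d => d ∣ a + M * l).card := by
        refine Finset.sum_le_sum fun l hl => ?_
        rw [Finset.mem_range] at hl
        apply tau_le_two (by omega)
        have : M * l < M * K := (Nat.mul_lt_mul_left hM).2 hl
        omega
    _ = 2 * ∑ d ∈ Ico 1 (2 ^ u), ((range K).filter fun l => d ∣ a + M * l).card := by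
        rw [← Finset.mul_sum]
        congr 1
        simp only [Finset.card_filter]
        exact Finset.sum_comm
    _ ≤ 2 * ∑ d ∈ Ico 1 (2 ^ u), (K / d + 1) := by
        refine Nat.mul_le_mul_left _ (Finset.sum_le_sum fun d hd => ?_)
        rw [Finset.mem_Ico] at hd
        exact count_ap (by omega) hc
    _ ≤ 2 * (K * u + K) := by
        rw [Finset.sum_add_distrib]
        have h1 := sum_div_le K u
        have h2 : ∑ d ∈ Ico 1 (2 ^ u), 1 ≤ K := by simp; omega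
        omega
    _ = _ := by ring

end Pool.Agent.H3.ErdBor
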